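import Pool.Agent.H171R2.Tri.Main

/-!
# Triangle-free induced subgraphs of the triangular lattice have imperfection ratio at most `9/8`
-/

namespace Pool.Agent.Results.MP_ae9f52_co.TriangleFreeNineEighths

open Pool.Agent.H171R2.Tri

/-- Let `S` be a finite set of points of the triangular lattice inducing a triangle-free graph, `w`
non-negative demands and `M` an upper bound of the weights of the cliques of `S`. Then there is a
fractional colouring of the demands `w` by independent subsets of `S` of total weight at most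
`9/8 * M`. -/
theorem result (S : Finset (ℤ × ℤ))
    (hS : (triLattice.induce (S : Set (ℤ × ℤ))).CliqueFree 3)
    (w : ℤ × ℤ → ℝ) (hw : ∀ v, 0 ≤ w v) (M : ℝ)
    (hM : ∀ C : Finset (ℤ × ℤ), C ⊆ S → triLattice.IsClique (C : Set (ℤ × ℤ)) →
      ∑ v ∈ C, w v ≤ M) :
    ∃ c : Finset (ℤ × ℤ) → ℝ, (∀ I, 0 ≤ c I) ∧
      (∀ I, c I ≠ 0 → I ⊆ S ∧ triLattice.IsIndepSet (I : Set (ℤ × ℤ))) ∧
      (∀ v ∈ S, w v ≤ ∑ I ∈ S.powerset with v ∈ I, c I) ∧
      ∑ I ∈ S.powerset, c I ≤ 9 / 8 * M :=
  imp_triangleFree oct_main S hS w hw M hM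

end Pool.Agent.Results.MP_ae9f52_co.TriangleFreeNineEighths
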